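import Mathlib

namespace Pool.Agent.Results.MP_887aa5_nt.Counterexample

/-- The Gaussian power sum: the sum of `(a + b i) ^ n` over all `a, b` in `{1, ..., p - 1}`. -/
def G (n p : ℕ) : GaussianInt :=
  ∑ a ∈ Finset.Icc 1 (p - 1), ∑ b ∈ Finset.Icc 1 (p - 1),
    (⟨(a : ℤ), (b : ℤ)⟩ : GaussianInt) ^ n

/-- `HasVal p z k` says that the `p`-adic valuation of `z = x + y i`, defined as the minimum of the
valuations of `x` and `y`, equals `k`: both coordinates are divisible by `p ^ k`, and not both are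
divisible by `p ^ (k + 1)`. -/
def HasVal (p : ℕ) (z : GaussianInt) (k : ℕ) : Prop :=
  ((p : ℤ) ^ k ∣ z.re ∧ (p : ℤ) ^ k ∣ z.im) ∧
    ¬ ((p : ℤ) ^ (k + 1) ∣ z.re ∧ (p : ℤ) ^ (k + 1) ∣ z.im)

theorem G_val : G 30 7 = ⟨0, -6264101156848215194673755568⟩ := by
  decide +kernel

/-- For `p = 7` and `r = 5` (odd) the valuation is `5`, not `3`. -/
theorem val5 : HasVal 7 (G (5 * (7 - 1)) 7) 5 := by
  have h : G (5 * (7 - 1)) 7 = ⟨0, -6264101156848215194673755568⟩ := G_val
  rw [h]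
  constructor
  · constructor
    · norm_num
    · norm_num
  · rintro ⟨_, h2⟩
    norm_num at h2

theorem result :
    ¬ (∀ p : ℕ, p.Prime → p % 4 = 3 → 7 ≤ p → ∀ r : ℕ, 1 ≤ r →
        (Even r → HasVal p (G (r * (p - 1)) p) 0) ∧
        (Odd r → HasVal p (G (r * (p - 1)) p) 3)) := by
  intro H
  have h := (H 7 (by norm_num) (by norm_num) le_rfl 5 (by norm_num)).2 (by decide)
  have h5 := val5
  apply h.2
  constructor
  · exact dvd_trans (pow_dvd_pow _ (by norm_num)) h5.1.1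
  · exact dvd_trans (pow_dvd_pow _ (by norm_num)) h5.1.2

end Pool.Agent.Results.MP_887aa5_nt.Counterexample
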